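import Pool.Agent.H51.BO.Complete
import Pool.Agent.H51.BO.Sbo2

/-!
# `SBO` and `BO` are not finitely generated complete classes

The definitions (`Linked`, `Iso`, `IsComplete`, `Generated`, `StronglyBaseOrderable`,
`BaseOrderable`) are in `Pool.Agent.H51.BO.Defs`.

For every finite family of finite matroids there is a rank three strongly base-orderable matroid
outside the complete class generated by the family (`exists_not_generated`).  The invariant:
the matroids whose rank function is a partial minimum of a finite sum of integer valued submodular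
functions of at most `s` variables form a complete class containing all matroids on at most `s`
elements.  The rank three matroid whose long lines are two disjoint `d`-point lines
`p₁ … p_d`, `q₁ … q_d` and the `d` concurrent lines `{x, pᵢ, qᵢ}` is strongly base-orderable, and
for large `d` it is not in that class.
-/

open Set Matroid PoolH51.BO

namespace Pool.Agent.Results.MP_9f00ad_co.NotFinitelyGenerated

theorem exists_not_generated {k : ℕ} {α : Fin k → Type} (M : ∀ i, Matroid (α i))
    (hM : ∀ i, (M i).E.Finite) :
    ∃ (β : Type) (N : Matroid β), N.E.Finite ∧ N.eRank = 3 ∧ StronglyBaseOrderable N ∧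
      BaseOrderable N ∧ ¬ Generated M N := by
  set s : ℕ := 2 + ∑ i, (M i).E.ncard with hs
  set d : ℕ := 3 * (1 + 3 * s ^ 2) + 1 with hd
  have hd2 : 2 ≤ d := by omega
  refine ⟨Pt d, Md d, md_finite, ?_, md_sbo hd2, (md_sbo hd2).baseOrderable, fun hgen => ?_⟩
  · obtain ⟨a, b, c, ht⟩ := exists_tri hd2
    rw [← ht.isBase.encard_eq_eRank, encard_eq_three]
    exact ⟨a, b, c, ht.1, ht.2.1, ht.2.2.1, rfl⟩
  · have h := hgen (Cls s) (cls_complete (by omega)) (fun i => Cls.small (hM i) ?_)
    · exact md_not_expr (by omega) h.2
    · have := Finset.single_le_sum (f := fun i => (M i).E.ncard) (fun _ _ => Nat.zero_le _)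
        (Finset.mem_univ i)
      omega

/-- Neither the class of strongly base-orderable matroids nor the class of base-orderable matroids
is the complete class generated by finitely many finite matroids. -/
theorem result :
    (¬ ∃ (k : ℕ) (α : Fin k → Type) (M : ∀ i, Matroid (α i)), (∀ i, (M i).E.Finite) ∧
      ∀ (β : Type) (N : Matroid β), Generated M N ↔ N.E.Finite ∧ StronglyBaseOrderable N) ∧
    (¬ ∃ (k : ℕ) (α : Fin k → Type) (M : ∀ i, Matroid (α i)), (∀ i, (M i).E.Finite) ∧
      ∀ (β : Type) (N : Matroid β), Generated M N ↔ N.E.Finite ∧ BaseOrderable N) := by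
  constructor
  · rintro ⟨k, α, M, hM, h⟩
    obtain ⟨β, N, h1, _, h2, _, h3⟩ := exists_not_generated M hM
    exact h3 ((h β N).2 ⟨h1, h2⟩)
  · rintro ⟨k, α, M, hM, h⟩
    obtain ⟨β, N, h1, _, _, h2, h3⟩ := exists_not_generated M hM
    exact h3 ((h β N).2 ⟨h1, h2⟩)

end Pool.Agent.Results.MP_9f00ad_co.NotFinitelyGenerated
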